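import Mathlib

open Module Finset

namespace Pool.Agent.Results.MP_f65349_co.UpperBound

variable {F V : Type*} [Field F] [Finite F] [AddCommGroup V] [Module F V]

/-! ### Elementary counting -/

section basic
open scoped Classical

/-- the number of vectors of a subspace -/
private lemma ub_card_mem [Fintype V] (W : Submodule F V) :
    (univ.filter (fun w : V => w ∈ W)).card = Nat.card F ^ finrank F W := by
  have : Finite V := inferInstance
  have : Module.Finite F W := Module.Finite.of_finite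
  rw [← Module.natCard_eq_pow_finrank (K := F) (V := W), Nat.card_eq_fintype_card,
    Fintype.card_subtype]

private lemma ub_card_diff [Fintype V] (U W : Submodule F V) (h : U ≤ W) :
    (((univ.filter (fun w : V => w ∈ W ∧ w ∉ U)).card : ℕ) : ℤ)
      = (Nat.card F : ℤ) ^ finrank F W - (Nat.card F : ℤ) ^ finrank F U := by
  have e : univ.filter (fun w : V => w ∈ W ∧ w ∉ U)
      = (univ.filter (fun w : V => w ∈ W)) \ (univ.filter (fun w : V => w ∈ U)) := by
    ext w; simp
  have hs : univ.filter (fun w : V => w ∈ U) ⊆ univ.filter (fun w : V => w ∈ W) := by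
    intro w hw
    simp only [mem_filter, mem_univ, true_and] at hw ⊢
    exact h hw
  rw [e, Finset.card_sdiff_of_subset hs, Nat.cast_sub (Finset.card_le_card hs), ub_card_mem,
    ub_card_mem]
  push_cast
  rfl

/-- two independent vectors lie in exactly one member -/
private lemma ub_pair (P : Set (Submodule F V))
    (hP : ∀ L : Submodule F V, finrank F L = 2 → ∃! X, X ∈ P ∧ L ≤ X)
    {v w : V} (hv : v ≠ 0) (hw : w ∉ Submodule.span F {v}) :
    ∃! X, X ∈ P ∧ v ∈ X ∧ w ∈ X := by
  have hli : LinearIndependent F ![v, w] := by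
    rw [LinearIndependent.pair_iff' hv]
    intro a ha
    exact hw (Submodule.mem_span_singleton.2 ⟨a, ha⟩)
  have h2 : finrank F (Submodule.span F (Set.range ![v, w])) = 2 := by
    rw [finrank_span_eq_card hli]; simp
  obtain ⟨X, ⟨hX, hLX⟩, hu⟩ := hP _ h2
  have key : ∀ Y : Submodule F V, Submodule.span F (Set.range ![v, w]) ≤ Y ↔ v ∈ Y ∧ w ∈ Y := by
    intro Y
    rw [Submodule.span_le, Set.range_subset_iff, Fin.forall_fin_two]
    simp
  refine ⟨X, ⟨hX, (key X).1 hLX⟩, ?_⟩
  rintro Y ⟨hY, hvw⟩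
  exact hu Y ⟨hY, (key Y).2 hvw⟩

/-- the basic double count at a vector, inside a subspace -/
private lemma ub_local [Fintype V] (P : Finset (Submodule F V))
    (hP : ∀ v w : V, v ≠ 0 → w ∉ Submodule.span F {v} → ∃! X, X ∈ P ∧ v ∈ X ∧ w ∈ X)
    (v : V) (hv : v ≠ 0) (H : Submodule F V) (hH : v ∈ H) :
    ∑ X ∈ P.filter (fun X => v ∈ X), ((Nat.card F : ℤ) ^ finrank F (X ⊓ H : Submodule F V)
        - (Nat.card F : ℤ))
      = (Nat.card F : ℤ) ^ finrank F H - (Nat.card F : ℤ) := by
  have hsp : finrank F (Submodule.span F {v}) = 1 := finrank_span_singleton hv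
  have hcount := Finset.sum_card_bipartiteAbove_eq_sum_card_bipartiteBelow
    (s := P.filter (fun X => v ∈ X))
    (t := univ.filter (fun w : V => w ∈ H ∧ w ∉ Submodule.span F {v}))
    (r := fun X w => w ∈ X)
  have h1 : ∀ X ∈ P.filter (fun X => v ∈ X),
      (((univ.filter (fun w : V => w ∈ H ∧ w ∉ Submodule.span F {v})).bipartiteAbove
        (fun X w => w ∈ X) X).card : ℤ)
      = (Nat.card F : ℤ) ^ finrank F (X ⊓ H : Submodule F V) - (Nat.card F : ℤ) := by
    intro X hX
    have hvX : v ∈ X := (mem_filter.1 hX).2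
    have hle : Submodule.span F {v} ≤ X ⊓ H := by
      rw [Submodule.span_singleton_le_iff_mem]; exact ⟨hvX, hH⟩
    have := ub_card_diff _ _ hle
    rw [hsp, pow_one] at this
    rw [← this]
    congr 2
    ext w
    simp only [Finset.bipartiteAbove, mem_filter, mem_univ, true_and, Submodule.mem_inf]
    tauto
  have h2 : ∀ w ∈ univ.filter (fun w : V => w ∈ H ∧ w ∉ Submodule.span F {v}),
      ((P.filter (fun X => v ∈ X)).bipartiteBelow (fun X w => w ∈ X) w).card = 1 := by
    intro w hw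
    simp only [mem_filter, mem_univ, true_and] at hw
    obtain ⟨X, ⟨hX, hvX, hwX⟩, hu⟩ := hP v w hv hw.2
    rw [Finset.card_eq_one]
    refine ⟨X, ?_⟩
    ext Y
    simp only [Finset.bipartiteBelow, mem_filter, mem_singleton]
    constructor
    · rintro ⟨⟨hY, hvY⟩, hwY⟩
      exact hu Y ⟨hY, hvY, hwY⟩
    · rintro rfl
      exact ⟨⟨hX, hvX⟩, hwX⟩
  rw [Finset.sum_congr rfl h2, Finset.sum_const, smul_eq_mul, mul_one] at hcount
  rw [← Finset.sum_congr rfl h1, ← Nat.cast_sum, hcount]
  have hle : Submodule.span F {v} ≤ H := by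
    rw [Submodule.span_singleton_le_iff_mem]; exact hH
  have := ub_card_diff _ _ hle
  rw [hsp, pow_one] at this
  exact this


/-- the number of lines (members of dimension 2) through `v` inside `H` -/
private noncomputable def lc (P : Finset (Submodule F V)) (v : V) (H : Submodule F V) : ℕ :=
  (P.filter (fun X : Submodule F V => (v ∈ X ∧ finrank F X = 2) ∧ X ≤ H)).card

/-- averaging over the hyperplanes of `H` through `v` -/
private lemma ub_avg [Fintype V] (P : Finset (Submodule F V)) (v : V) (hv : v ≠ 0)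
    (H : Submodule F V) (hH : v ∈ H) (hl : 0 < lc P v H) :
    ∃ H' : Submodule F V, H' ≤ H ∧ v ∈ H' ∧ finrank F H' + 1 = finrank F H ∧
      Nat.card F * lc P v H' < lc P v H := by
  have hfinV : Module.Finite F V := Module.Finite.of_finite
  have hfd : Finite (Dual F V) := Module.finite_of_finite F
  let _ : Fintype (Dual F V) := Fintype.ofFinite _
  by_contra hcon
  push Not at hcon
  set q : ℤ := (Nat.card F : ℤ) with hq
  have hq2 : 2 ≤ q := by
    have : 1 < Nat.card F := Finite.one_lt_card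
    rw [hq]; exact_mod_cast this
  set LH := P.filter (fun X : Submodule F V => (v ∈ X ∧ finrank F X = 2) ∧ X ≤ H) with hLH
  set S : Finset (Dual F V) := univ.filter (fun f : Dual F V =>
    f ∈ (Submodule.span F {v}).dualAnnihilator ∧ f ∉ H.dualAnnihilator) with hS
  have hvH : Submodule.span F {v} ≤ H := by
    rw [Submodule.span_singleton_le_iff_mem]; exact hH
  have hSc : (S.card : ℤ) = q ^ finrank F (Submodule.span F {v}).dualAnnihilator
      - q ^ finrank F H.dualAnnihilator :=
    ub_card_diff (F := F) (V := Dual F V) _ _ (Submodule.dualAnnihilator_anti hvH)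
  have e1 := Subspace.finrank_add_finrank_dualAnnihilator_eq (K := F) (Submodule.span F {v})
  rw [finrank_span_singleton hv] at e1
  have hS1 : ∀ f ∈ S, lc P v H ≤ Nat.card F * (LH.bipartiteAbove
      (fun (f : Dual F V) (X : Submodule F V) => X ≤ LinearMap.ker f) f).card := by
    intro f hf
    obtain ⟨hf1, hf2⟩ := (mem_filter.1 hf).2
    have hfv : f v = 0 := (Submodule.mem_dualAnnihilator f).1 hf1 v
      (Submodule.mem_span_singleton_self v)
    have hf0 : f ≠ 0 := by
      rintro rfl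
      exact hf2 (Submodule.zero_mem _)
    have hker : ¬ H ≤ LinearMap.ker f := by
      intro h
      apply hf2
      rw [Submodule.mem_dualAnnihilator]
      intro w hw
      exact h hw
    have hk1 := Module.Dual.finrank_ker_add_one_of_ne_zero hf0
    have hsup : finrank F (H ⊔ LinearMap.ker f : Submodule F V) = finrank F V := by
      have h1 : finrank F (H ⊔ LinearMap.ker f : Submodule F V) ≤ finrank F V :=
        Submodule.finrank_le _
      have h2 : finrank F (LinearMap.ker f) < finrank F (H ⊔ LinearMap.ker f : Submodule F V) := by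
        apply Submodule.finrank_lt_finrank_of_lt
        refine lt_of_le_of_ne le_sup_right ?_
        intro h
        apply hker
        rw [h]; exact le_sup_left
      omega
    have hdim := Submodule.finrank_sup_add_finrank_inf_eq H (LinearMap.ker f)
    have hc := hcon (H ⊓ LinearMap.ker f) inf_le_left ⟨hH, hfv⟩ (by omega)
    refine le_trans hc (Nat.mul_le_mul_left _ (le_of_eq ?_))
    unfold lc
    congr 1
    ext X
    simp only [Finset.bipartiteAbove, mem_filter, hLH, le_inf_iff]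
    tauto
  have hS2 : ∀ X ∈ LH, ((S.bipartiteBelow
      (fun (f : Dual F V) (X : Submodule F V) => X ≤ LinearMap.ker f) X).card : ℤ)
      = q ^ (finrank F V - 2) - q ^ finrank F H.dualAnnihilator := by
    intro X hX
    simp only [hLH, mem_filter] at hX
    obtain ⟨hXP, ⟨hvX, hX2⟩, hXH⟩ := hX
    have e2 := Subspace.finrank_add_finrank_dualAnnihilator_eq (K := F) X
    have hcd := ub_card_diff (F := F) (V := Dual F V) _ _ (Submodule.dualAnnihilator_anti hXH)
    have hXe : finrank F X.dualAnnihilator = finrank F V - 2 := by omega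
    rw [hXe] at hcd
    rw [← hcd]
    congr 2
    ext f
    simp only [Finset.bipartiteBelow, hS, mem_filter, mem_univ, true_and,
      Submodule.mem_dualAnnihilator]
    constructor
    · rintro ⟨⟨_, h2⟩, h3⟩
      exact ⟨fun w hw => h3 hw, h2⟩
    · rintro ⟨h1, h2⟩
      refine ⟨⟨?_, h2⟩, fun w hw => h1 w hw⟩
      intro w hw
      obtain ⟨c, rfl⟩ := Submodule.mem_span_singleton.1 hw
      rw [map_smul, h1 v hvX, smul_zero]
  have hdc := Finset.sum_card_bipartiteAbove_eq_sum_card_bipartiteBelow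
    (s := S) (t := LH) (r := fun (f : Dual F V) (X : Submodule F V) => X ≤ LinearMap.ker f)
  have h1 : (S.card : ℤ) * (lc P v H : ℤ) ≤ q * ∑ f ∈ S, ((LH.bipartiteAbove
      (fun (f : Dual F V) (X : Submodule F V) => X ≤ LinearMap.ker f) f).card : ℤ) := by
    rw [Finset.mul_sum]
    calc (S.card : ℤ) * (lc P v H : ℤ) = ∑ _f ∈ S, (lc P v H : ℤ) := by
          rw [Finset.sum_const, nsmul_eq_mul]
      _ ≤ _ := Finset.sum_le_sum (fun f hf => by rw [hq]; exact_mod_cast hS1 f hf)
  have h2 : (∑ f ∈ S, ((LH.bipartiteAbove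
      (fun (f : Dual F V) (X : Submodule F V) => X ≤ LinearMap.ker f) f).card : ℤ))
      = (lc P v H : ℤ) * (q ^ (finrank F V - 2) - q ^ finrank F H.dualAnnihilator) := by
    rw [← Nat.cast_sum, hdc, Nat.cast_sum, Finset.sum_congr rfl hS2, Finset.sum_const,
      nsmul_eq_mul]
    rfl
  obtain ⟨X0, hX0⟩ := Finset.card_pos.1 hl
  have hX02 : 2 ≤ finrank F V := by
    have := (mem_filter.1 hX0).2.1.2
    rw [← this]; exact Submodule.finrank_le _
  have hexp : finrank F (Submodule.span F {v}).dualAnnihilator = (finrank F V - 2) + 1 := by omega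
  rw [h2, hSc, hexp, pow_succ] at h1
  have hpos : (0 : ℤ) < q ^ finrank F H.dualAnnihilator := by positivity
  have hlpos : (0 : ℤ) < (lc P v H : ℤ) := by exact_mod_cast hl
  nlinarith [mul_pos hlpos hpos, mul_pos (mul_pos hlpos hpos) (by linarith : (0:ℤ) < q - 1)]


/-- the congruence for the number of lines through `v` in a large subspace -/
private lemma ub_congr [Fintype V] (k : ℕ) (hk : 4 ≤ k) (hV : finrank F V = 2 * k - 1)
    (P : Finset (Submodule F V))
    (hdim : ∀ X ∈ P, finrank F X = k ∨ finrank F X = k - 1 ∨ finrank F X = 2)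
    (hP : ∀ v w : V, v ≠ 0 → w ∉ Submodule.span F {v} → ∃! X, X ∈ P ∧ v ∈ X ∧ w ∈ X)
    (v : V) (hv : v ≠ 0) (H : Submodule F V) (hH : v ∈ H) (r : ℕ)
    (hr : finrank F H = k + 2 + r) :
    ((Nat.card F : ℤ) ^ (r + 1)) ∣
      (((P.filter (fun X : Submodule F V => v ∈ X)).filter
        (fun X : Submodule F V => finrank F X ≠ 2)).card : ℤ) - 1
        - ((Nat.card F : ℤ) - 1) * (lc P v H : ℤ) := by
  have hfinV : Module.Finite F V := Module.Finite.of_finite
  set q : ℤ := (Nat.card F : ℤ) with hq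
  have hq2 : 2 ≤ q := by
    have : 1 < Nat.card F := Finite.one_lt_card
    rw [hq]; exact_mod_cast this
  set T := P.filter (fun X : Submodule F V => v ∈ X) with hT
  have hloc := ub_local P hP v hv H hH
  rw [← hq, ← hT, hr] at hloc
  set c : Submodule F V → ℤ := fun X =>
    if finrank F X = 2 then (if X ≤ H then q ^ 2 - q else 0) else -q with hc
  have hdvd : ∀ X ∈ T, q ^ (r + 2) ∣ (q ^ finrank F (X ⊓ H : Submodule F V) - q) - c X := by
    intro X hX
    obtain ⟨hXP, hvX⟩ := mem_filter.1 hX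
    have hd := Submodule.finrank_sup_add_finrank_inf_eq X H
    have hle : finrank F (X ⊔ H : Submodule F V) ≤ finrank F V := Submodule.finrank_le _
    by_cases h2 : finrank F X = 2
    · have hcX : c X = if X ≤ H then q ^ 2 - q else 0 := by
        rw [hc]; simp only [h2, if_true]
      by_cases hXH : X ≤ H
      · have : X ⊓ H = X := inf_eq_left.2 hXH
        rw [hcX, if_pos hXH, this, h2, sub_self]
        exact dvd_zero _
      · have h1 : finrank F (X ⊓ H : Submodule F V) < 2 := by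
          rw [← h2]
          exact Submodule.finrank_lt_finrank_of_lt
            (lt_of_le_of_ne inf_le_left (fun h => hXH (inf_eq_left.1 h)))
        have h1' : 1 ≤ finrank F (X ⊓ H : Submodule F V) := by
          have : finrank F (Submodule.span F {v}) ≤ finrank F (X ⊓ H : Submodule F V) := by
            apply Submodule.finrank_mono
            rw [Submodule.span_singleton_le_iff_mem]
            exact ⟨hvX, hH⟩
          rwa [finrank_span_singleton hv] at this
        have h11 : finrank F (X ⊓ H : Submodule F V) = 1 := by omega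
        rw [hcX, if_neg hXH, h11, pow_one, sub_self, sub_zero]
        exact dvd_zero _
    · have hcX : c X = -q := by
        rw [hc]; simp only [h2, if_false]
      have hge : r + 2 ≤ finrank F (X ⊓ H : Submodule F V) := by
        rcases hdim X hXP with h | h | h <;> omega
      rw [hcX]
      have : q ^ finrank F (X ⊓ H : Submodule F V) - q - -q
          = q ^ finrank F (X ⊓ H : Submodule F V) := by ring
      rw [this]
      exact pow_dvd_pow _ hge
  have hsum : q ^ (r + 2) ∣ ∑ X ∈ T, ((q ^ finrank F (X ⊓ H : Submodule F V) - q) - c X) :=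
    Finset.dvd_sum hdvd
  rw [Finset.sum_sub_distrib, hloc] at hsum
  have hcs : ∑ X ∈ T, c X = (lc P v H : ℤ) * (q ^ 2 - q)
      - q * ((T.filter (fun X : Submodule F V => finrank F X ≠ 2)).card : ℤ) := by
    rw [hc, Finset.sum_ite, Finset.sum_ite, Finset.sum_const, Finset.sum_const_zero,
      Finset.sum_const, nsmul_eq_mul, nsmul_eq_mul]
    have : ((T.filter (fun X : Submodule F V => finrank F X = 2)).filter
        (fun X : Submodule F V => X ≤ H)) = P.filter (fun X : Submodule F V =>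
          (v ∈ X ∧ finrank F X = 2) ∧ X ≤ H) := by
      rw [hT, Finset.filter_filter, Finset.filter_filter]
      simp only [and_assoc]
    rw [this]
    unfold lc
    ring
  rw [hcs] at hsum
  set m : ℤ := ((T.filter (fun X : Submodule F V => finrank F X ≠ 2)).card : ℤ) with hm
  have h3 : q ^ (r + 2) ∣ q ^ (k + 2 + r) := pow_dvd_pow _ (by omega)
  have h4 : q ^ (r + 2) ∣ q * (m - 1 - (q - 1) * (lc P v H : ℤ)) := by
    have := dvd_sub hsum h3
    have e : q ^ (k + 2 + r) - q - ((lc P v H : ℤ) * (q ^ 2 - q) - q * m) - q ^ (k + 2 + r)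
        = q * (m - 1 - (q - 1) * (lc P v H : ℤ)) := by ring
    rwa [e] at this
  have h5 : q ^ (r + 2) = q * q ^ (r + 1) := by ring
  rw [h5] at h4
  exact (mul_dvd_mul_iff_left (by linarith : q ≠ 0)).1 h4


/-- the `q`-bracket `1 + q + ... + q ^ (n-1)` -/
private def br (q : ℤ) (n : ℕ) : ℤ := ∑ i ∈ Finset.range n, q ^ i

private lemma br_succ (q : ℤ) (n : ℕ) : br q (n + 1) = br q n + q ^ n := by
  unfold br; rw [Finset.sum_range_succ]

private lemma br_mul (q : ℤ) (n : ℕ) : (q - 1) * br q n = q ^ n - 1 := by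
  unfold br
  exact mul_geom_sum q n

private lemma br_succ' (q : ℤ) (n : ℕ) : br q (n + 1) = 1 + q * br q n := by
  have h := br_succ q n
  have h2 := br_mul q n
  rw [h]; linarith

private lemma br_ge (q : ℤ) (hq : 2 ≤ q) (n : ℕ) : (n : ℤ) ≤ br q n := by
  unfold br
  calc (n : ℤ) = ∑ _i ∈ Finset.range n, (1 : ℤ) := by simp
    _ ≤ _ := Finset.sum_le_sum (fun i _ => one_le_pow₀ (by linarith))

/-- the number of lines through a vector in a large subspace, written as `s + D [r+1]` -/
private lemma ub_ind [Fintype V] (k : ℕ) (hk : 4 ≤ k) (hV : finrank F V = 2 * k - 1)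
    (P : Finset (Submodule F V))
    (hdim : ∀ X ∈ P, finrank F X = k ∨ finrank F X = k - 1 ∨ finrank F X = 2)
    (hP : ∀ v w : V, v ≠ 0 → w ∉ Submodule.span F {v} → ∃! X, X ∈ P ∧ v ∈ X ∧ w ∈ X)
    (v : V) (hv : v ≠ 0) (r : ℕ) :
    ∀ (H : Submodule F V), v ∈ H → finrank F H = k + 2 + r → ∀ s D : ℤ,
      (lc P v H : ℤ) = s + D * br (Nat.card F) (r + 1) → D < ((Nat.card F : ℤ) - 1) * s →
      (Nat.card F : ℤ) * r ≤ D + s := by
  have hq2' : (2 : ℤ) ≤ (Nat.card F : ℤ) := by
    have : 1 < Nat.card F := Finite.one_lt_card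
    exact_mod_cast this
  induction r with
  | zero =>
    intro H hH hr s D hl hD
    have h0 : (0 : ℤ) ≤ (lc P v H : ℤ) := Int.natCast_nonneg _
    have hb : br (Nat.card F) (0 + 1) = 1 := by unfold br; simp
    rw [hl, hb] at h0
    push_cast
    linarith
  | succ r ih =>
    intro H hH hr s D hl hD
    have h0 : (0 : ℤ) ≤ (lc P v H : ℤ) := Int.natCast_nonneg _
    set q : ℤ := (Nat.card F : ℤ) with hq
    have hbs := br_succ' q (r + 1)
    have hbs2 := br_succ q (r + 1)
    have hbm := br_mul q (r + 1)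
    have hbg := br_ge q hq2' (r + 1)
    by_cases hneg : D < 0
    · rw [hl, hbs] at h0
      push_cast at hbg ⊢
      have hb0 : (r : ℤ) + 1 ≤ br q (r + 1) := hbg
      have h1 : q * br q (r + 1) ≤ (-D) * (q * br q (r + 1)) := by
        have : 0 ≤ q * br q (r + 1) := by
          apply mul_nonneg <;> linarith [Int.natCast_nonneg r]
        nlinarith
      have h2 : q * ((r : ℤ) + 1) ≤ q * br q (r + 1) :=
        mul_le_mul_of_nonneg_left hb0 (by linarith)
      nlinarith
    · push Not at hneg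
      have hs : 0 < s := by
        by_contra h
        push Not at h
        nlinarith
      have hbpos : 0 ≤ br q (r + 1 + 1) := by
        rw [hbs]
        have : 0 ≤ br q (r + 1) := by linarith [Int.natCast_nonneg (r + 1)]
        nlinarith
      have hlpos : (0 : ℤ) < (lc P v H : ℤ) := by
        rw [hl]; nlinarith [mul_nonneg hneg hbpos]
      obtain ⟨H', hH', hvH', hdH', hav⟩ := ub_avg P v hv H hH (by exact_mod_cast hlpos)
      have hr' : finrank F H' = k + 2 + r := by omega
      have hav' : q * (lc P v H' : ℤ) < (lc P v H : ℤ) := by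
        rw [hq]; exact_mod_cast hav
      have c1 := ub_congr k hk hV P hdim hP v hv H hH (r + 1) hr
      have c2 := ub_congr k hk hV P hdim hP v hv H' hvH' r hr'
      rw [← hq] at c1 c2
      have c1' := dvd_trans (pow_dvd_pow q (by omega : r + 1 ≤ r + 1 + 1)) c1
      have c3 := dvd_sub c2 c1'
      have e : (((P.filter (fun X : Submodule F V => v ∈ X)).filter
        (fun X : Submodule F V => finrank F X ≠ 2)).card : ℤ) - 1 - (q - 1) * (lc P v H' : ℤ)
        - ((((P.filter (fun X : Submodule F V => v ∈ X)).filter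
        (fun X : Submodule F V => finrank F X ≠ 2)).card : ℤ) - 1 - (q - 1) * (lc P v H : ℤ))
        = (q - 1) * ((lc P v H : ℤ) - (lc P v H' : ℤ)) := by ring
      rw [e] at c3
      have hcop : IsCoprime (q ^ (r + 1)) (q - 1) := by
        apply IsCoprime.pow_left
        exact ⟨1, -1, by ring⟩
      obtain ⟨τ, hτ⟩ := hcop.dvd_of_dvd_mul_left c3
      have hrec : (lc P v H' : ℤ) = (s - (τ - D)) + (D - (τ - D) * (q - 1)) * br q (r + 1) := by
        have : (lc P v H' : ℤ) = s + D * br q (r + 1 + 1) - q ^ (r + 1) * τ := by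
          rw [← hl]; linarith
        rw [this, hbs2]
        have hp : q ^ (r + 1) = 1 + (q - 1) * br q (r + 1) := by linarith
        rw [hp]; ring
      have hu : 0 < τ - D := by
        by_contra hcon
        push Not at hcon
        rw [hrec, hl, hbs] at hav'
        have hp : q ^ (r + 1) = 1 + (q - 1) * br q (r + 1) := by linarith
        have h6 : q * ((s - (τ - D)) + (D - (τ - D) * (q - 1)) * br q (r + 1))
            = q * s + q * D * br q (r + 1) - (τ - D) * (q * q ^ (r + 1)) := by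
          rw [hp]; ring
        rw [h6] at hav'
        have h7 : 0 ≤ - ((τ - D) * (q * q ^ (r + 1))) := by
          have : 0 ≤ q * q ^ (r + 1) := by positivity
          nlinarith
        nlinarith
      have := ih H' hvH' hr' (s - (τ - D)) (D - (τ - D) * (q - 1)) hrec (by nlinarith)
      push_cast
      nlinarith


/-- the number of members of dimension `d` through `v` -/
private noncomputable def dg (P : Finset (Submodule F V)) (v : V) (d : ℕ) : ℕ :=
  (P.filter (fun X : Submodule F V => v ∈ X ∧ finrank F X = d)).card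

private lemma lc_top (P : Finset (Submodule F V)) (v : V) : lc P v ⊤ = dg P v 2 := by
  unfold lc dg
  simp

/-- the degree equation at a vector -/
private lemma ub_deg [Fintype V] (k : ℕ) (hk : 4 ≤ k) (hV : finrank F V = 2 * k - 1)
    (P : Finset (Submodule F V))
    (hdim : ∀ X ∈ P, finrank F X = k ∨ finrank F X = k - 1 ∨ finrank F X = 2)
    (hP : ∀ v w : V, v ≠ 0 → w ∉ Submodule.span F {v} → ∃! X, X ∈ P ∧ v ∈ X ∧ w ∈ X)
    (v : V) (hv : v ≠ 0) :
    (dg P v k : ℤ) * ((Nat.card F : ℤ) ^ k - Nat.card F)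
      + (dg P v (k - 1) : ℤ) * ((Nat.card F : ℤ) ^ (k - 1) - Nat.card F)
      + (dg P v 2 : ℤ) * ((Nat.card F : ℤ) ^ 2 - Nat.card F)
      = (Nat.card F : ℤ) ^ (2 * k - 1) - Nat.card F := by
  have hfinV : Module.Finite F V := Module.Finite.of_finite
  set q : ℤ := (Nat.card F : ℤ) with hq
  have hloc := ub_local P hP v hv ⊤ Submodule.mem_top
  rw [finrank_top, hV, ← hq] at hloc
  set T := P.filter (fun X : Submodule F V => v ∈ X) with hT
  have hmaps : ∀ X ∈ T, finrank F X ∈ ({k, k - 1, 2} : Finset ℕ) := by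
    intro X hX
    have := hdim X (mem_filter.1 hX).1
    simpa using this
  have hfib := Finset.sum_fiberwise_of_maps_to hmaps
    (fun X => q ^ finrank F (X ⊓ ⊤ : Submodule F V) - q)
  rw [hloc] at hfib
  have hin : ∀ d : ℕ, ∑ X ∈ T.filter (fun X : Submodule F V => finrank F X = d),
      (q ^ finrank F (X ⊓ ⊤ : Submodule F V) - q) = (dg P v d : ℤ) * (q ^ d - q) := by
    intro d
    have h1 : ∀ X ∈ T.filter (fun X : Submodule F V => finrank F X = d),
        (q ^ finrank F (X ⊓ ⊤ : Submodule F V) - q) = q ^ d - q := by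
      intro X hX
      rw [inf_top_eq, (mem_filter.1 hX).2]
    rw [Finset.sum_congr rfl h1, Finset.sum_const, nsmul_eq_mul]
    unfold dg
    rw [hT, Finset.filter_filter]
  have hk1 : k ∉ ({k - 1, 2} : Finset ℕ) := by
    simp only [mem_insert, mem_singleton, not_or]; omega
  have hk2 : k - 1 ∉ ({2} : Finset ℕ) := by
    simp only [mem_singleton]; omega
  rw [Finset.sum_insert hk1, Finset.sum_insert hk2, Finset.sum_singleton, hin, hin, hin] at hfib
  linarith

/-- the two cases for the number of lines through a vector -/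
private lemma ub_cases [Fintype V] (k : ℕ) (hk : 4 ≤ k) (hV : finrank F V = 2 * k - 1)
    (P : Finset (Submodule F V))
    (hdim : ∀ X ∈ P, finrank F X = k ∨ finrank F X = k - 1 ∨ finrank F X = 2)
    (hP : ∀ v w : V, v ≠ 0 → w ∉ Submodule.span F {v} → ∃! X, X ∈ P ∧ v ∈ X ∧ w ∈ X)
    (v : V) (hv : v ≠ 0) :
    ∃ D : ℤ, (dg P v 2 : ℤ) = ((Nat.card F : ℤ) + 1 - dg P v k) + D * br (Nat.card F) (k - 2) ∧
      (((Nat.card F : ℤ) - 1) * ((Nat.card F : ℤ) + 1 - dg P v k) ≤ D ∨
        (Nat.card F : ℤ) * ((k : ℤ) - 3) ≤ D + ((Nat.card F : ℤ) + 1 - dg P v k)) := by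
  have hq2 : (2 : ℤ) ≤ (Nat.card F : ℤ) := by
    have : 1 < Nat.card F := Finite.one_lt_card
    exact_mod_cast this
  have hdeg := ub_deg k hk hV P hdim hP v hv
  obtain ⟨t, rfl⟩ : ∃ t, k = t + 3 := ⟨k - 3, by omega⟩
  have e1 : t + 3 - 1 = t + 2 := by omega
  have e2 : 2 * (t + 3) - 1 = 2 * t + 5 := by omega
  have e3 : t + 3 - 2 = t + 1 := by omega
  rw [e1, e2] at hdeg
  rw [e3]
  have hbm := br_mul (Nat.card F : ℤ) (t + 1)
  set q : ℤ := (Nat.card F : ℤ) with hq
  set a : ℤ := (dg P v (t + 3) : ℤ) with ha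
  set b : ℤ := (dg P v (t + 2) : ℤ) with hb
  set l : ℤ := (dg P v 2 : ℤ) with hl
  have key : l = (q + 1 - a) + (q ^ (t + 3) - b + q * (q - a)) * br q (t + 1) := by
    have hq1 : q * (q - 1) ≠ 0 := by
      apply mul_ne_zero <;> linarith
    apply mul_left_cancel₀ hq1
    have h1 : q * (q - 1) * ((q + 1 - a) + (q ^ (t + 3) - b + q * (q - a)) * br q (t + 1))
        = q * (q - 1) * (q + 1 - a) + q * (q ^ (t + 3) - b + q * (q - a))
          * ((q - 1) * br q (t + 1)) := by ring
    rw [h1, hbm]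
    have p1 : q ^ (2 * t + 5) = q ^ t * q ^ t * q ^ 5 := by ring
    have p2 : q ^ (t + 3) = q ^ t * q ^ 3 := by ring
    have p3 : q ^ (t + 2) = q ^ t * q ^ 2 := by ring
    have p4 : q ^ (t + 1) = q ^ t * q := by ring
    rw [p1, p2, p3] at hdeg
    rw [p2, p4]
    linear_combination hdeg
  refine ⟨_, key, ?_⟩
  by_cases hc : (q - 1) * (q + 1 - a) ≤ q ^ (t + 3) - b + q * (q - a)
  · exact Or.inl hc
  · right
    push Not at hc
    have h := ub_ind (t + 3) hk hV P hdim hP v hv t ⊤ Submodule.mem_top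
      (by rw [finrank_top, hV]; omega) (q + 1 - a) (q ^ (t + 3) - b + q * (q - a))
      (by rw [lc_top]; exact key) hc
    push_cast
    have e : ((t : ℤ) + 3 - 3) = t := by ring
    rw [e]
    exact h

/-- lower bound for the number of lines through a vector, general form -/
private lemma ub_low1 [Fintype V] (k : ℕ) (hk : 4 ≤ k) (hV : finrank F V = 2 * k - 1)
    (P : Finset (Submodule F V))
    (hdim : ∀ X ∈ P, finrank F X = k ∨ finrank F X = k - 1 ∨ finrank F X = 2)
    (hP : ∀ v w : V, v ≠ 0 → w ∉ Submodule.span F {v} → ∃! X, X ∈ P ∧ v ∈ X ∧ w ∈ X)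
    (v : V) (hv : v ≠ 0) :
    (4 * (k : ℤ) - 14) * ((Nat.card F : ℤ) ^ (k - 2) * ((Nat.card F : ℤ) + 1 - dg P v k))
      - (Nat.card F : ℤ) * br (Nat.card F) (k - 2)
        * (((Nat.card F : ℤ) + 1 - dg P v k) * ((Nat.card F : ℤ) - dg P v k))
      ≤ (4 * (k : ℤ) - 14) * (dg P v 2 : ℤ) := by
  have hq2 : (2 : ℤ) ≤ (Nat.card F : ℤ) := by
    have : 1 < Nat.card F := Finite.one_lt_card
    exact_mod_cast this
  obtain ⟨D, hD, hor⟩ := ub_cases k hk hV P hdim hP v hv
  have hbm := br_mul (Nat.card F : ℤ) (k - 2)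
  have hbg := br_ge (Nat.card F : ℤ) hq2 (k - 2)
  rw [hD]
  set q : ℤ := (Nat.card F : ℤ) with hq
  set G : ℤ := br q (k - 2) with hG
  have hG0 : 0 ≤ G := le_trans (Int.natCast_nonneg _) hbg
  obtain ⟨s, hs⟩ : ∃ s : ℤ, s = q + 1 - (dg P v k : ℤ) := ⟨_, rfl⟩
  have hs1 : q - (dg P v k : ℤ) = s - 1 := by rw [hs]; ring
  rw [← hs] at hor ⊢
  rw [hs1]
  have hQ : q ^ (k - 2) = 1 + (q - 1) * G := by linarith
  rw [hQ]
  have hk4 : (4 : ℤ) ≤ (k : ℤ) := by exact_mod_cast hk
  have hss : 0 ≤ s * (s - 1) := by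
    rcases le_or_gt s 0 with h | h
    · nlinarith
    · have : 1 ≤ s := h
      exact mul_nonneg (by linarith) (by linarith)
  rcases hor with h | h
  · have h1 : 0 ≤ (D - (q - 1) * s) * G := mul_nonneg (by linarith) hG0
    have h2 : 0 ≤ q * G * (s * (s - 1)) := by
      apply mul_nonneg _ hss
      exact mul_nonneg (by linarith) hG0
    nlinarith [mul_nonneg (by linarith : (0 : ℤ) ≤ 4 * (k : ℤ) - 14) h1]
  · have h1 : 0 ≤ (D + s - q * ((k : ℤ) - 3)) * G := mul_nonneg (by linarith) hG0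
    have h3 : 0 ≤ (s - 2 * ((k : ℤ) - 3)) * (s - 2 * ((k : ℤ) - 3) + 1) := by
      rcases le_or_gt (s - 2 * ((k : ℤ) - 3)) (-1) with h | h
      · nlinarith
      · have : 0 ≤ s - 2 * ((k : ℤ) - 3) := by linarith
        exact mul_nonneg this (by linarith)
    have h4 : 0 ≤ q * G * ((s - 2 * ((k : ℤ) - 3)) * (s - 2 * ((k : ℤ) - 3) + 1)) := by
      apply mul_nonneg _ h3
      exact mul_nonneg (by linarith) hG0
    have h5 := mul_nonneg (by linarith : (0 : ℤ) ≤ 4 * (k : ℤ) - 14) h1
    nlinarith [h4, h5]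

/-- two different members meet in dimension at most one -/
private lemma ub_meet [Fintype V] (P : Finset (Submodule F V))
    (hP : ∀ v w : V, v ≠ 0 → w ∉ Submodule.span F {v} → ∃! X, X ∈ P ∧ v ∈ X ∧ w ∈ X)
    (X Y : Submodule F V) (hX : X ∈ P) (hY : Y ∈ P) (hne : X ≠ Y) :
    finrank F (X ⊓ Y : Submodule F V) ≤ 1 := by
  have hfinV : Module.Finite F V := Module.Finite.of_finite
  by_cases hb : X ⊓ Y = ⊥
  · rw [hb, finrank_bot]; omega
  · obtain ⟨v, hv, hv0⟩ := (Submodule.ne_bot_iff _).1 hb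
    have hle : X ⊓ Y ≤ Submodule.span F {v} := by
      intro w hw
      by_contra hcon
      obtain ⟨Z, _, hu⟩ := hP v w hv0 hcon
      exact hne ((hu X ⟨hX, hv.1, hw.1⟩).trans (hu Y ⟨hY, hv.2, hw.2⟩).symm)
    have := Submodule.finrank_mono hle
    rwa [finrank_span_singleton hv0] at this

/-- every vector lies in a member of dimension `k` -/
private lemma ub_apos [Fintype V] (k : ℕ) (hk : 4 ≤ k) (hV : finrank F V = 2 * k - 1)
    (P : Finset (Submodule F V))
    (hP : ∀ v w : V, v ≠ 0 → w ∉ Submodule.span F {v} → ∃! X, X ∈ P ∧ v ∈ X ∧ w ∈ X)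
    (hA : (P.filter (fun X : Submodule F V => finrank F X = k)).card = Nat.card F ^ k + 1)
    (v : V) (hv : v ≠ 0) : 1 ≤ dg P v k := by
  by_contra hcon
  have ha0 : dg P v k = 0 := by omega
  have hfinV : Module.Finite F V := Module.Finite.of_finite
  have hfd : Finite (Dual F V) := Module.finite_of_finite F
  let _ : Fintype (Dual F V) := Fintype.ofFinite _
  set q : ℤ := (Nat.card F : ℤ) with hq
  have hq2 : 2 ≤ q := by
    have : 1 < Nat.card F := Finite.one_lt_card
    rw [hq]; exact_mod_cast this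
  set A := P.filter (fun X : Submodule F V => finrank F X = k) with hAdef
  have hnv : ∀ X ∈ A, v ∉ X := by
    intro X hX hvX
    have : 0 < dg P v k := by
      unfold dg
      apply Finset.card_pos.2
      exact ⟨X, mem_filter.2 ⟨(mem_filter.1 hX).1, hvX, (mem_filter.1 hX).2⟩⟩
    omega
  set S : Finset (Dual F V) := univ.filter (fun f : Dual F V =>
    f ∈ (⊤ : Submodule F (Dual F V)) ∧ f ∉ (Submodule.span F {v}).dualAnnihilator) with hS
  have e1 := Subspace.finrank_add_finrank_dualAnnihilator_eq (K := F) (Submodule.span F {v})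
  rw [finrank_span_singleton hv, hV] at e1
  have hSc : (S.card : ℤ) = q ^ (2 * k - 1) - q ^ (2 * k - 2) := by
    have := ub_card_diff (F := F) (V := Dual F V) _ _
      (le_top : (Submodule.span F {v}).dualAnnihilator ≤ ⊤)
    rw [finrank_top, Subspace.dual_finrank_eq, hV] at this
    have e : finrank F (Submodule.span F {v}).dualAnnihilator = 2 * k - 2 := by omega
    rw [e] at this
    exact this
  have hdc := Finset.sum_card_bipartiteAbove_eq_sum_card_bipartiteBelow
    (s := A) (t := S) (r := fun (X : Submodule F V) (f : Dual F V) => X ≤ LinearMap.ker f)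
  have h1 : ∀ X ∈ A, ((S.bipartiteAbove
      (fun (X : Submodule F V) (f : Dual F V) => X ≤ LinearMap.ker f) X).card : ℤ)
      = q ^ (k - 1) - q ^ (k - 2) := by
    intro X hX
    have hvX := hnv X hX
    have hXk := (mem_filter.1 hX).2
    have hsup : finrank F (X ⊔ Submodule.span F {v} : Submodule F V) = k + 1 := by
      have h1 := Submodule.finrank_sup_add_finrank_inf_eq X (Submodule.span F {v})
      rw [finrank_span_singleton hv, hXk] at h1
      have h2 : X ⊓ Submodule.span F {v} = ⊥ := by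
        rw [Submodule.eq_bot_iff]
        rintro w ⟨hw1, hw2⟩
        obtain ⟨c, rfl⟩ := Submodule.mem_span_singleton.1 hw2
        by_cases hc : c = 0
        · rw [hc, zero_smul]
        · exfalso
          apply hvX
          have := X.smul_mem c⁻¹ hw1
          rwa [smul_smul, inv_mul_cancel₀ hc, one_smul] at this
      rw [h2, finrank_bot] at h1
      omega
    have e2 := Subspace.finrank_add_finrank_dualAnnihilator_eq (K := F) X
    have e3 := Subspace.finrank_add_finrank_dualAnnihilator_eq (K := F)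
      (X ⊔ Submodule.span F {v})
    have e2' : finrank F X.dualAnnihilator = k - 1 := by omega
    have e3' : finrank F (X ⊔ Submodule.span F {v}).dualAnnihilator = k - 2 := by omega
    have hcd := ub_card_diff (F := F) (V := Dual F V) _ _
      (Submodule.dualAnnihilator_anti (le_sup_left : X ≤ X ⊔ Submodule.span F {v}))
    rw [e2', e3'] at hcd
    rw [← hcd]
    congr 2
    ext f
    simp only [Finset.bipartiteAbove, hS, mem_filter, mem_univ, true_and,
      Submodule.mem_dualAnnihilator, Submodule.mem_top]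
    constructor
    · rintro ⟨h2, h3⟩
      refine ⟨fun w hw => h3 hw, fun h4 => h2 ?_⟩
      intro w hw
      exact h4 w (Submodule.mem_sup_right hw)
    · rintro ⟨h2, h3⟩
      refine ⟨fun h4 => h3 ?_, fun w hw => h2 w hw⟩
      intro w hw
      obtain ⟨y, hy, z, hz, rfl⟩ := Submodule.mem_sup.1 hw
      rw [map_add, h2 y hy, h4 z hz, add_zero]
  have h2 : ∀ f ∈ S, (A.bipartiteBelow
      (fun (X : Submodule F V) (f : Dual F V) => X ≤ LinearMap.ker f) f).card ≤ 1 := by
    intro f hf
    rw [Finset.card_le_one]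
    intro X hX Y hY
    simp only [Finset.bipartiteBelow, mem_filter] at hX hY
    by_contra hne
    have hXA := mem_filter.1 hX.1
    have hYA := mem_filter.1 hY.1
    have hm := ub_meet P hP X Y hXA.1 hYA.1 hne
    have hd := Submodule.finrank_sup_add_finrank_inf_eq X Y
    have hle : finrank F (X ⊔ Y : Submodule F V) ≤ finrank F (LinearMap.ker f) :=
      Submodule.finrank_mono (sup_le hX.2 hY.2)
    have hf0 : f ≠ 0 := by
      rintro rfl
      exact (mem_filter.1 hf).2.2 (Submodule.zero_mem _)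
    have hk1 := Module.Dual.finrank_ker_add_one_of_ne_zero hf0
    have := hXA.2
    have := hYA.2
    omega
  have h3 : ((A.card : ℕ) : ℤ) * (q ^ (k - 1) - q ^ (k - 2)) ≤ (S.card : ℤ) := by
    rw [← nsmul_eq_mul, ← Finset.sum_const, ← Finset.sum_congr rfl h1, ← Nat.cast_sum, hdc]
    have : ∑ f ∈ S, (A.bipartiteBelow
      (fun (X : Submodule F V) (f : Dual F V) => X ≤ LinearMap.ker f) f).card ≤ S.card := by
      calc _ ≤ ∑ _f ∈ S, 1 := Finset.sum_le_sum h2
        _ = S.card := by simp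
    exact_mod_cast this
  rw [hA, hSc] at h3
  push_cast at h3
  rw [← hq] at h3
  obtain ⟨t, rfl⟩ : ∃ t, k = t + 4 := ⟨k - 4, by omega⟩
  have f1 : 2 * (t + 4) - 1 = 2 * t + 7 := by omega
  have f2 : 2 * (t + 4) - 2 = 2 * t + 6 := by omega
  have f3 : t + 4 - 1 = t + 3 := by omega
  have f4 : t + 4 - 2 = t + 2 := by omega
  rw [f1, f2, f3, f4] at h3
  have f5 : q ^ (2 * t + 7) - q ^ (2 * t + 6) = q ^ (t + 4) * (q ^ (t + 3) - q ^ (t + 2)) := by
    ring
  rw [f5] at h3
  have f6 : 0 < q ^ (t + 3) - q ^ (t + 2) := by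
    have : q ^ (t + 3) - q ^ (t + 2) = q ^ (t + 2) * (q - 1) := by ring
    rw [this]
    exact mul_pos (by positivity) (by linarith)
  nlinarith

/-- the sum of the degrees -/
private lemma ub_sum1 [Fintype V] (P : Finset (Submodule F V)) (d : ℕ) :
    ∑ v ∈ univ.filter (fun v : V => v ≠ 0), (dg P v d : ℤ)
      = ((P.filter (fun X : Submodule F V => finrank F X = d)).card : ℤ)
        * ((Nat.card F : ℤ) ^ d - 1) := by
  have hfinV : Module.Finite F V := Module.Finite.of_finite
  have hdc := Finset.sum_card_bipartiteAbove_eq_sum_card_bipartiteBelow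
    (s := univ.filter (fun v : V => v ≠ 0))
    (t := P.filter (fun X : Submodule F V => finrank F X = d))
    (r := fun (v : V) (X : Submodule F V) => v ∈ X)
  have h1 : ∀ v : V, dg P v d = ((P.filter (fun X : Submodule F V => finrank F X = d)).bipartiteAbove
      (fun (v : V) (X : Submodule F V) => v ∈ X) v).card := by
    intro v
    unfold dg
    congr 1
    ext X
    simp only [Finset.bipartiteAbove, mem_filter]
    tauto
  have h2 : ∀ X ∈ P.filter (fun X : Submodule F V => finrank F X = d),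
      (((univ.filter (fun v : V => v ≠ 0)).bipartiteBelow
      (fun (v : V) (X : Submodule F V) => v ∈ X) X).card : ℤ) = (Nat.card F : ℤ) ^ d - 1 := by
    intro X hX
    have := ub_card_diff (F := F) _ _ (bot_le : (⊥ : Submodule F V) ≤ X)
    rw [(mem_filter.1 hX).2, finrank_bot, pow_zero] at this
    rw [← this]
    congr 2
    ext w
    simp only [Finset.bipartiteBelow, mem_filter, mem_univ, true_and, Submodule.mem_bot]
    tauto
  rw [Finset.sum_congr rfl (fun v _ => by rw [h1 v] : ∀ v ∈ univ.filter (fun v : V => v ≠ 0),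
    (dg P v d : ℤ) = _), ← Nat.cast_sum, hdc, Nat.cast_sum, Finset.sum_congr rfl h2,
    Finset.sum_const, nsmul_eq_mul]

/-- the sum of the squares of the degrees of the members of dimension `k` -/
private lemma ub_sum2 [Fintype V] (k : ℕ) (hk : 4 ≤ k) (hV : finrank F V = 2 * k - 1)
    (P : Finset (Submodule F V))
    (hP : ∀ v w : V, v ≠ 0 → w ∉ Submodule.span F {v} → ∃! X, X ∈ P ∧ v ∈ X ∧ w ∈ X)
    (N : ℕ) (hN : (P.filter (fun X : Submodule F V => finrank F X = k)).card = N) :
    ∑ v ∈ univ.filter (fun v : V => v ≠ 0), (dg P v k : ℤ) * (dg P v k : ℤ)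
      = (N : ℤ) * ((Nat.card F : ℤ) ^ k - 1) + (N : ℤ) * ((N : ℤ) - 1) * ((Nat.card F : ℤ) - 1) := by
  have hfinV : Module.Finite F V := Module.Finite.of_finite
  set A := P.filter (fun X : Submodule F V => finrank F X = k) with hA
  have hdc := Finset.sum_card_bipartiteAbove_eq_sum_card_bipartiteBelow
    (s := univ.filter (fun v : V => v ≠ 0))
    (t := A ×ˢ A)
    (r := fun (v : V) (p : Submodule F V × Submodule F V) => v ∈ p.1 ∧ v ∈ p.2)
  have h1 : ∀ v : V, dg P v k * dg P v k = ((A ×ˢ A).bipartiteAbove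
      (fun (v : V) (p : Submodule F V × Submodule F V) => v ∈ p.1 ∧ v ∈ p.2) v).card := by
    intro v
    have e : P.filter (fun X : Submodule F V => v ∈ X ∧ finrank F X = k)
        = A.filter (fun X : Submodule F V => v ∈ X) := by
      rw [hA, Finset.filter_filter]
      ext X
      simp only [mem_filter]
      tauto
    unfold dg
    rw [e, ← Finset.card_product]
    congr 1
    ext p
    simp only [Finset.bipartiteAbove, mem_filter, mem_product]
    tauto
  have h2 : ∀ p ∈ A ×ˢ A,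
      (((univ.filter (fun v : V => v ≠ 0)).bipartiteBelow
      (fun (v : V) (p : Submodule F V × Submodule F V) => v ∈ p.1 ∧ v ∈ p.2) p).card : ℤ)
        = if p.1 = p.2 then (Nat.card F : ℤ) ^ k - 1 else (Nat.card F : ℤ) - 1 := by
    intro p hp
    obtain ⟨hp1, hp2⟩ := mem_product.1 hp
    have h1' := mem_filter.1 hp1
    have h2' := mem_filter.1 hp2
    have := ub_card_diff (F := F) _ _ (bot_le : (⊥ : Submodule F V) ≤ p.1 ⊓ p.2)
    rw [finrank_bot, pow_zero] at this
    have hset : (univ.filter (fun v : V => v ≠ 0)).bipartiteBelow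
      (fun (v : V) (p : Submodule F V × Submodule F V) => v ∈ p.1 ∧ v ∈ p.2) p
      = univ.filter (fun w : V => w ∈ p.1 ⊓ p.2 ∧ w ∉ (⊥ : Submodule F V)) := by
      ext w
      simp only [Finset.bipartiteBelow, mem_filter, mem_univ, true_and, Submodule.mem_bot,
        Submodule.mem_inf]
      tauto
    rw [hset, this]
    by_cases hpe : p.1 = p.2
    · rw [if_pos hpe, ← hpe, inf_idem, h1'.2]
    · have hm := ub_meet P hP p.1 p.2 h1'.1 h2'.1 hpe
      have hd := Submodule.finrank_sup_add_finrank_inf_eq p.1 p.2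
      have hle : finrank F (p.1 ⊔ p.2 : Submodule F V) ≤ finrank F V := Submodule.finrank_le _
      have h11 : finrank F (p.1 ⊓ p.2 : Submodule F V) = 1 := by
        have := h1'.2
        have := h2'.2
        omega
      rw [if_neg hpe, h11, pow_one]
  have h3 : ∑ v ∈ univ.filter (fun v : V => v ≠ 0), (dg P v k : ℤ) * (dg P v k : ℤ)
      = ∑ p ∈ A ×ˢ A, if p.1 = p.2 then (Nat.card F : ℤ) ^ k - 1 else (Nat.card F : ℤ) - 1 := by
    rw [← Finset.sum_congr rfl h2, ← Nat.cast_sum, ← hdc, Nat.cast_sum]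
    refine Finset.sum_congr rfl (fun v _ => ?_)
    rw [← h1 v]
    push_cast
    rfl
  rw [h3, Finset.sum_product]
  have h4 : ∀ X ∈ A, (∑ Y ∈ A, if X = Y then (Nat.card F : ℤ) ^ k - 1 else (Nat.card F : ℤ) - 1)
      = ((Nat.card F : ℤ) ^ k - 1) + ((N : ℤ) - 1) * ((Nat.card F : ℤ) - 1) := by
    intro X hX
    have e : ∀ Y ∈ A, (if X = Y then (Nat.card F : ℤ) ^ k - 1 else (Nat.card F : ℤ) - 1)
        = (if X = Y then (Nat.card F : ℤ) ^ k - (Nat.card F : ℤ) else 0)
          + ((Nat.card F : ℤ) - 1) := by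
      intro Y _
      split_ifs <;> ring
    rw [Finset.sum_congr rfl e, Finset.sum_add_distrib, Finset.sum_ite_eq, if_pos hX,
      Finset.sum_const, nsmul_eq_mul, hN]
    ring
  rw [Finset.sum_congr rfl h4, Finset.sum_const, nsmul_eq_mul, hN]
  ring


/-- lower bound for the number of lines through a vector, for `q ≤ 2k-6` -/
private lemma ub_low2 [Fintype V] (k : ℕ) (hk : 4 ≤ k) (hV : finrank F V = 2 * k - 1)
    (P : Finset (Submodule F V))
    (hdim : ∀ X ∈ P, finrank F X = k ∨ finrank F X = k - 1 ∨ finrank F X = 2)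
    (hP : ∀ v w : V, v ≠ 0 → w ∉ Submodule.span F {v} → ∃! X, X ∈ P ∧ v ∈ X ∧ w ∈ X)
    (v : V) (hv : v ≠ 0) (hkq : Nat.card F + 6 ≤ 2 * k) (ha : 1 ≤ dg P v k) :
    ((Nat.card F : ℤ) - 1) * ((Nat.card F : ℤ) ^ (k - 2) * ((Nat.card F : ℤ) + 1 - dg P v k))
      - (max ((Nat.card F : ℤ) + 3 - k) 0) * br (Nat.card F) (k - 2)
        * (((Nat.card F : ℤ) + 1 - dg P v k) * ((Nat.card F : ℤ) - dg P v k))
      ≤ ((Nat.card F : ℤ) - 1) * (dg P v 2 : ℤ) := by
  have hq2 : (2 : ℤ) ≤ (Nat.card F : ℤ) := by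
    have : 1 < Nat.card F := Finite.one_lt_card
    exact_mod_cast this
  obtain ⟨D, hD, hor⟩ := ub_cases k hk hV P hdim hP v hv
  have hbm := br_mul (Nat.card F : ℤ) (k - 2)
  have hbg := br_ge (Nat.card F : ℤ) hq2 (k - 2)
  have hkq' : (Nat.card F : ℤ) + 6 ≤ 2 * (k : ℤ) := by exact_mod_cast hkq
  have ha' : (1 : ℤ) ≤ (dg P v k : ℤ) := by exact_mod_cast ha
  rw [hD]
  set q : ℤ := (Nat.card F : ℤ) with hq
  set G : ℤ := br q (k - 2) with hG
  have hG0 : 0 ≤ G := le_trans (Int.natCast_nonneg _) hbg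
  have hQ : q ^ (k - 2) = 1 + (q - 1) * G := by linarith
  rw [hQ]
  obtain ⟨s, hs⟩ : ∃ s : ℤ, s = q + 1 - (dg P v k : ℤ) := ⟨_, rfl⟩
  have hs1 : q - (dg P v k : ℤ) = s - 1 := by rw [hs]; ring
  have hsq : s ≤ q := by rw [hs]; linarith
  rw [← hs] at hor ⊢
  rw [hs1]
  obtain ⟨c, hc⟩ : ∃ c : ℤ, c = max (q + 3 - (k : ℤ)) 0 := ⟨_, rfl⟩
  rw [← hc]
  have hc0 : 0 ≤ c := by rw [hc]; exact le_max_right _ _
  have hc1 : q + 3 - (k : ℤ) ≤ c := by rw [hc]; exact le_max_left _ _
  have hss : 0 ≤ s * (s - 1) := by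
    rcases le_or_gt s 0 with h | h
    · nlinarith
    · have : 1 ≤ s := h
      exact mul_nonneg (by linarith) (by linarith)
  rcases le_or_gt ((q - 1) * s) D with h | h
  · have h1 : 0 ≤ (D - (q - 1) * s) * G := mul_nonneg (by linarith) hG0
    have h2 : 0 ≤ c * G * (s * (s - 1)) := mul_nonneg (mul_nonneg hc0 hG0) hss
    nlinarith [mul_nonneg (by linarith : (0 : ℤ) ≤ q - 1) h1]
  · have h' : q * ((k : ℤ) - 3) ≤ D + s := by
      rcases hor with h2 | h2
      · linarith
      · exact h2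
    have hts : (k : ℤ) - 3 < s := by
      have : q * ((k : ℤ) - 3) < q * s := by linarith
      exact lt_of_mul_lt_mul_left this (by linarith)
    have hk4 : (4 : ℤ) ≤ (k : ℤ) := by exact_mod_cast hk
    have h1 : 0 ≤ (D + s - q * ((k : ℤ) - 3)) * G := mul_nonneg (by linarith) hG0
    -- `(q-t)(s(s-1)) - (q-1) q (s-t) = (q-s)(...)` with `t = k-3`
    have h3 : (q - 1) * q * (s - ((k : ℤ) - 3)) ≤ c * (s * (s - 1)) := by
      have h4 : (q + 3 - (k : ℤ)) * (s * (s - 1)) ≤ c * (s * (s - 1)) :=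
        mul_le_mul_of_nonneg_right hc1 hss
      have h5 : (q + 3 - (k : ℤ)) * (s * (s - 1)) - (q - 1) * q * (s - ((k : ℤ) - 3))
          = (q - s) * (q * ((k : ℤ) - 3) + s * ((k : ℤ) - 3) - ((k : ℤ) - 3) - q * s) := by ring
      have h6 : 0 ≤ (q - s) * (q * ((k : ℤ) - 3) + s * ((k : ℤ) - 3) - ((k : ℤ) - 3) - q * s) := by
        rcases eq_or_lt_of_le hsq with h7 | h7
        · rw [h7]; simp
        · apply mul_nonneg (by linarith)
          nlinarith
      linarith
    have h8 := mul_le_mul_of_nonneg_right h3 hG0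
    have h9 := mul_nonneg (by linarith : (0 : ℤ) ≤ q - 1) h1
    nlinarith [h8, h9]


/-- the global count -/
private lemma ub_final [Fintype V] (k : ℕ) (hk : 4 ≤ k) (hV : finrank F V = 2 * k - 1)
    (P : Finset (Submodule F V))
    (hdim : ∀ X ∈ P, finrank F X = k ∨ finrank F X = k - 1 ∨ finrank F X = 2)
    (hP : ∀ v w : V, v ≠ 0 → w ∉ Submodule.span F {v} → ∃! X, X ∈ P ∧ v ∈ X ∧ w ∈ X)
    (hA : (P.filter (fun X : Submodule F V => finrank F X = k)).card = Nat.card F ^ k + 1)
    (M c : ℤ)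
    (hlow : ∀ v : V, v ≠ 0 →
      M * ((Nat.card F : ℤ) ^ (k - 2) * ((Nat.card F : ℤ) + 1 - dg P v k))
      - c * br (Nat.card F) (k - 2)
        * (((Nat.card F : ℤ) + 1 - dg P v k) * ((Nat.card F : ℤ) - dg P v k))
      ≤ M * (dg P v 2 : ℤ)) :
    M * (((P.filter (fun X : Submodule F V => finrank F X = k - 1)).card : ℤ)
      - (Nat.card F : ℤ) ^ (2 * k) - (Nat.card F : ℤ) ^ k)
      ≤ c * ((Nat.card F : ℤ) * ((Nat.card F : ℤ) - 1)) := by
  have hq2 : (2 : ℤ) ≤ (Nat.card F : ℤ) := by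
    have : 1 < Nat.card F := Finite.one_lt_card
    exact_mod_cast this
  have hbm := br_mul (Nat.card F : ℤ) (k - 2)
  have s1 := ub_sum1 P k (F := F)
  have s2 := ub_sum2 k hk hV P hP _ hA
  have s3 := ub_sum1 P (k - 1) (F := F)
  have hcard : (((univ.filter (fun v : V => v ≠ 0)).card : ℕ) : ℤ)
      = (Nat.card F : ℤ) ^ (2 * k - 1) - 1 := by
    have := ub_card_diff (F := F) _ _ (bot_le : (⊥ : Submodule F V) ≤ ⊤)
    rw [finrank_top, finrank_bot, pow_zero, hV] at this
    rw [← this]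
    congr 2
    ext w
    simp
  have hdeg : ∑ v ∈ univ.filter (fun v : V => v ≠ 0),
      ((dg P v k : ℤ) * ((Nat.card F : ℤ) ^ k - Nat.card F)
      + (dg P v (k - 1) : ℤ) * ((Nat.card F : ℤ) ^ (k - 1) - Nat.card F)
      + (dg P v 2 : ℤ) * ((Nat.card F : ℤ) ^ 2 - Nat.card F))
      = ∑ v ∈ univ.filter (fun v : V => v ≠ 0), ((Nat.card F : ℤ) ^ (2 * k - 1) - Nat.card F) :=
    Finset.sum_congr rfl (fun v hv => ub_deg k hk hV P hdim hP v (mem_filter.1 hv).2)
  have hlow' : ∑ v ∈ univ.filter (fun v : V => v ≠ 0),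
      (M * ((Nat.card F : ℤ) ^ (k - 2) * ((Nat.card F : ℤ) + 1 - dg P v k))
      - c * br (Nat.card F) (k - 2)
        * (((Nat.card F : ℤ) + 1 - dg P v k) * ((Nat.card F : ℤ) - dg P v k)))
      ≤ ∑ v ∈ univ.filter (fun v : V => v ≠ 0), M * (dg P v 2 : ℤ) :=
    Finset.sum_le_sum (fun v hv => hlow v (mem_filter.1 hv).2)
  rw [Finset.sum_add_distrib, Finset.sum_add_distrib, ← Finset.sum_mul, ← Finset.sum_mul,
    ← Finset.sum_mul, Finset.sum_const, nsmul_eq_mul, hcard, s1, s3, hA] at hdeg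
  rw [← Finset.mul_sum] at hlow'
  have hexp : ∑ v ∈ univ.filter (fun v : V => v ≠ 0),
      (M * ((Nat.card F : ℤ) ^ (k - 2) * ((Nat.card F : ℤ) + 1 - dg P v k))
      - c * br (Nat.card F) (k - 2)
        * (((Nat.card F : ℤ) + 1 - dg P v k) * ((Nat.card F : ℤ) - dg P v k)))
      = (((Nat.card F : ℤ) ^ (2 * k - 1) - 1)) *
          (M * (Nat.card F : ℤ) ^ (k - 2) * ((Nat.card F : ℤ) + 1)
            - c * br (Nat.card F) (k - 2) * (((Nat.card F : ℤ) + 1) * (Nat.card F : ℤ)))
        + (∑ v ∈ univ.filter (fun v : V => v ≠ 0), (dg P v k : ℤ)) *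
          (- M * (Nat.card F : ℤ) ^ (k - 2)
            + c * br (Nat.card F) (k - 2) * (2 * (Nat.card F : ℤ) + 1))
        + (∑ v ∈ univ.filter (fun v : V => v ≠ 0), (dg P v k : ℤ) * (dg P v k : ℤ)) *
          (- c * br (Nat.card F) (k - 2)) := by
    rw [← hcard, ← nsmul_eq_mul, ← Finset.sum_const, Finset.sum_mul, Finset.sum_mul,
      ← Finset.sum_add_distrib, ← Finset.sum_add_distrib]
    refine Finset.sum_congr rfl (fun v _ => ?_)
    ring
  rw [hexp, s1, s2, hA] at hlow'
  obtain ⟨t, rfl⟩ : ∃ t, k = t + 4 := ⟨k - 4, by omega⟩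
  have f1 : 2 * (t + 4) - 1 = 2 * t + 7 := by omega
  have f3 : t + 4 - 1 = t + 3 := by omega
  have f4 : t + 4 - 2 = t + 2 := by omega
  have f5 : 2 * (t + 4) = 2 * t + 8 := by omega
  rw [f1, f3] at hdeg
  rw [f1, f4] at hlow'
  rw [f4] at hbm
  rw [f3, f5]
  push_cast at hdeg hlow'
  set q : ℤ := (Nat.card F : ℤ) with hq
  set G : ℤ := br q (t + 2) with hG
  set x : ℤ := ((P.filter (fun X : Submodule F V => finrank F X = t + 3)).card : ℤ) with hx
  set L : ℤ := ∑ v ∈ univ.filter (fun v : V => v ≠ 0), (dg P v 2 : ℤ) with hL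
  obtain ⟨Q, hQ⟩ : ∃ Q : ℤ, Q = q ^ t := ⟨_, rfl⟩
  have hQ1 : 1 ≤ Q := by rw [hQ]; exact one_le_pow₀ (by linarith)
  have p1 : q ^ (2 * t + 7) = Q * Q * q ^ 7 := by rw [hQ]; ring
  have p2 : q ^ (t + 4) = Q * q ^ 4 := by rw [hQ]; ring
  have p3 : q ^ (t + 3) = Q * q ^ 3 := by rw [hQ]; ring
  have p4 : q ^ (t + 2) = Q * q ^ 2 := by rw [hQ]; ring
  have p5 : q ^ (2 * t + 8) = Q * Q * q ^ 8 := by rw [hQ]; ring
  rw [p1, p2, p3] at hdeg
  rw [p1, p2, p4] at hlow'
  rw [p4] at hbm
  rw [p5, p2]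
  -- the positive factor
  have hA1 : 0 < Q * q ^ 3 - 1 := by
    have h8 : (8 : ℤ) ≤ q ^ 3 := by
      have := pow_le_pow_left₀ (by norm_num : (0 : ℤ) ≤ 2) hq2 3
      linarith
    nlinarith
  have hA2 : 0 < Q * q ^ 3 - q := by
    have h4 : (4 : ℤ) ≤ q ^ 2 := by
      have := pow_le_pow_left₀ (by norm_num : (0 : ℤ) ≤ 2) hq2 2
      linarith
    have : Q * q ^ 3 - q = q * (Q * q ^ 2 - 1) := by ring
    rw [this]
    apply mul_pos (by linarith)
    nlinarith
  have hpos : 0 < (Q * q ^ 3 - 1) * (Q * q ^ 3 - q) := mul_pos hA1 hA2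
  refine le_of_mul_le_mul_right ?_ hpos
  have hqq : 0 ≤ q * (q - 1) := mul_nonneg (by linarith) (by linarith)
  have hm := mul_le_mul_of_nonneg_left hlow' hqq
  have e1 : q * (q - 1) * (M * L) = M * (L * (q ^ 2 - q)) := by ring
  have e2 : L * (q ^ 2 - q) = (Q * Q * q ^ 7 - 1) * (Q * Q * q ^ 7 - q)
      - (Q * q ^ 4 + 1) * (Q * q ^ 4 - 1) * (Q * q ^ 4 - q)
      - x * (Q * q ^ 3 - 1) * (Q * q ^ 3 - q) := by linarith
  rw [e1, e2] at hm
  have e3 : q * (q - 1) * ((Q * Q * q ^ 7 - 1) *
          (M * (Q * q ^ 2) * (q + 1) - c * G * ((q + 1) * q))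
        + (Q * q ^ 4 + 1) * (Q * q ^ 4 - 1) * (- M * (Q * q ^ 2) + c * G * (2 * q + 1))
        + ((Q * q ^ 4 + 1) * (Q * q ^ 4 - 1) + (Q * q ^ 4 + 1) * (Q * q ^ 4 + 1 - 1) * (q - 1))
          * (- c * G))
      = M * (q * (q - 1) * (Q * q ^ 2) * ((Q * Q * q ^ 7 - 1) * (q + 1)
            - (Q * q ^ 4 + 1) * (Q * q ^ 4 - 1)))
        - c * q * ((q - 1) * G) * ((q - 1) * (Q * q ^ 4 - q)) := by ring
  rw [e3, hbm] at hm
  linear_combination hm

end basic

/-- An upper bound for the number of members of dimension `k-1` in a vector space 2-partition of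
type `k^(q^k+1) (k-1)^m 2^*` of a space of dimension `2k-1` over the field with `q` elements. -/
theorem result {F V : Type*} [Field F] [Finite F] [AddCommGroup V] [Module F V]
    (k : ℕ) (hk : 4 ≤ k) (hV : finrank F V = 2 * k - 1)
    (P : Set (Submodule F V))
    (hdim : ∀ X ∈ P, finrank F X = k ∨ finrank F X = k - 1 ∨ finrank F X = 2)
    (hP : ∀ L : Submodule F V, finrank F L = 2 → ∃! X, X ∈ P ∧ L ≤ X)
    (hA : {X : Submodule F V | X ∈ P ∧ finrank F X = k}.ncard = Nat.card F ^ k + 1) :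
    ({X : Submodule F V | X ∈ P ∧ finrank F X = k - 1}.ncard : ℝ)
      ≤ (Nat.card F : ℝ) ^ (2 * k) + (Nat.card F : ℝ) ^ k
        + if Nat.card F + 6 ≤ 2 * k then (Nat.card F : ℝ) * max ((Nat.card F : ℝ) + 3 - k) 0
          else (Nat.card F : ℝ) ^ 2 * ((Nat.card F : ℝ) - 1) / (4 * k - 14) := by
  classical
  have hfinV : Module.Finite F V := Module.finite_of_finrank_pos (by omega)
  have hfV : Finite V := Module.finite_of_finite F
  let _ : Fintype V := Fintype.ofFinite V
  have hfS : Finite (Submodule F V) :=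
    Finite.of_injective (fun W : Submodule F V => (W : Set V)) SetLike.coe_injective
  obtain ⟨Q, hQ⟩ : ∃ Q : Finset (Submodule F V), ∀ X, X ∈ Q ↔ X ∈ P :=
    ⟨(Set.toFinite P).toFinset, fun X => by rw [Set.Finite.mem_toFinset]⟩
  have hc : ∀ d : ℕ, {X : Submodule F V | X ∈ P ∧ finrank F X = d}.ncard
      = (Q.filter (fun X : Submodule F V => finrank F X = d)).card := by
    intro d
    rw [← Set.ncard_coe_finset]
    congr 1
    ext X
    simp [hQ]
  have hdim' : ∀ X ∈ Q, finrank F X = k ∨ finrank F X = k - 1 ∨ finrank F X = 2 :=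
    fun X hX => hdim X ((hQ X).1 hX)
  have hP' : ∀ v w : V, v ≠ 0 → w ∉ Submodule.span F {v} → ∃! X, X ∈ Q ∧ v ∈ X ∧ w ∈ X := by
    intro v w hv hw
    simpa only [hQ] using ub_pair P hP hv hw
  rw [hc] at hA
  rw [hc]
  have hq2 : (2 : ℤ) ≤ (Nat.card F : ℤ) := by
    have : 1 < Nat.card F := Finite.one_lt_card
    exact_mod_cast this
  have hq2' : (2 : ℝ) ≤ (Nat.card F : ℝ) := by exact_mod_cast hq2
  split_ifs with hkq
  · have h := ub_final k hk hV Q hdim' hP' hA _ _ (fun v hv =>
      ub_low2 k hk hV Q hdim' hP' v hv hkq (ub_apos k hk hV Q hP' hA v hv))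
    have h2 : ((Nat.card F : ℤ) - 1) * (((Q.filter (fun X : Submodule F V =>
          finrank F X = k - 1)).card : ℤ)
        - (Nat.card F : ℤ) ^ (2 * k) - (Nat.card F : ℤ) ^ k)
        ≤ ((Nat.card F : ℤ) - 1) * ((Nat.card F : ℤ) * (max ((Nat.card F : ℤ) + 3 - k) 0)) := by
      refine le_trans h (le_of_eq ?_); ring
    have h3 := le_of_mul_le_mul_left h2 (by linarith)
    have h4 : ((((Q.filter (fun X : Submodule F V =>
          finrank F X = k - 1)).card : ℤ)
        - (Nat.card F : ℤ) ^ (2 * k) - (Nat.card F : ℤ) ^ k : ℤ) : ℝ)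
        ≤ (((Nat.card F : ℤ) * (max ((Nat.card F : ℤ) + 3 - k) 0) : ℤ) : ℝ) :=
      Int.cast_le.2 h3
    push_cast at h4
    linarith
  · have h := ub_final k hk hV Q hdim' hP' hA _ _ (fun v hv =>
      ub_low1 k hk hV Q hdim' hP' v hv)
    have h4 : (((4 * (k : ℤ) - 14) * (((Q.filter (fun X : Submodule F V =>
          finrank F X = k - 1)).card : ℤ)
        - (Nat.card F : ℤ) ^ (2 * k) - (Nat.card F : ℤ) ^ k) : ℤ) : ℝ)
        ≤ (((Nat.card F : ℤ) * ((Nat.card F : ℤ) * ((Nat.card F : ℤ) - 1)) : ℤ) : ℝ) :=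
      Int.cast_le.2 h
    push_cast at h4
    have hk4 : (4 : ℝ) ≤ (k : ℝ) := by exact_mod_cast hk
    have hden : (0 : ℝ) < 4 * (k : ℝ) - 14 := by linarith
    rw [← sub_le_iff_le_add', le_div_iff₀ hden]
    nlinarith [h4]

end Pool.Agent.Results.MP_f65349_co.UpperBound
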